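import Pool.Agent.L5helper8.CV.LocA
import Pool.Agent.L5helper59.CV3L

/-! The sum over the zeros with the window and the multiplier, on the Riemann hypothesis. -/

set_option autoImplicit false

open Filter Topology Set Complex

namespace Pool.Agent.L5helper8.CVL

open H370
open Pool.Agent.L5helper59.CV3L (Mk mn Mk_le mn_shift)

lemma re_half (RH : RiemannHypothesis) {s : ℂ} (h0 : 0 < s.re) (h1 : s.re < 1)
    (hz : riemannZeta s = 0) : s.re = 1 / 2 := by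
  refine RH s hz ?_ ?_
  · rintro ⟨n, hn⟩
    rw [hn] at h0
    have e : ((-2 : ℂ) * (n + 1)).re = -2 * (n + 1) := by
      simp
    rw [e] at h0
    have : (0 : ℝ) ≤ n := Nat.cast_nonneg n
    linarith
  · intro h
    rw [h] at h1
    simp at h1

lemma hh_norm (s : ℂ) (hs : s.re = 1 / 2) (u t : ℝ) :
    ‖hh u t s‖ = Real.exp (-(s.im - t) ^ 2 / 2) := by
  unfold hh
  have e : s - 1 / 2 = I * (s.im : ℂ) := by
    apply Complex.ext
    · simp [hs]
    · simp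
  rw [e, norm_mul, Complex.norm_exp, Complex.norm_exp]
  have e1 : ((u : ℂ) * (I * (s.im : ℂ))).re = 0 := by simp
  have e2 : (I * (s.im : ℂ) - I * t) ^ 2 / 2 = ((-(s.im - t) ^ 2 / 2 : ℝ) : ℂ) := by
    have : (I * (s.im : ℂ) - I * t) ^ 2 = I ^ 2 * ((s.im : ℂ) - t) ^ 2 := by ring
    rw [this, Complex.I_sq]
    push_cast
    ring
  rw [e1, e2, Real.exp_zero, one_mul, Complex.ofReal_re]

lemma poly_gauss (x : ℝ) : (1 + |x|) * Real.exp (-x ^ 2 / 2) ≤ 2 * Real.exp (-x ^ 2 / 4) := by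
  have h1 : 1 + |x| ≤ 2 * Real.exp (x ^ 2 / 4) := by
    have h2 := Real.add_one_le_exp (x ^ 2 / 4)
    have h3 : x ^ 2 = |x| ^ 2 := (sq_abs x).symm
    rw [h3] at h2 ⊢
    nlinarith [sq_nonneg (|x| - 1)]
  calc (1 + |x|) * Real.exp (-x ^ 2 / 2) ≤ (2 * Real.exp (x ^ 2 / 4)) * Real.exp (-x ^ 2 / 2) := by
        gcongr
    _ = 2 * Real.exp (-x ^ 2 / 4) := by
        rw [mul_assoc, ← Real.exp_add]
        congr 2
        ring

theorem zbd (RH : RiemannHypothesis) : ∃ C : ℝ, 0 ≤ C ∧ ∀ (P : Finset ℂ) (κ u t : ℝ),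
    (∀ s ∈ P, 0 < s.re ∧ s.re < 1 ∧ riemannZeta s = 0) → 0 < κ → κ ≤ 1 →
    ‖∑ s ∈ P, (mult riemannZeta s : ℂ) * (hh u t s * Mk κ s)‖ ≤
      C * (Real.log (3 + |t|) * mn κ t) := by
  obtain ⟨C, hC, h⟩ := gsum
  refine ⟨12 * C, by positivity, fun P κ u t hP hκ0 hκ => ?_⟩
  have hm0 : 0 ≤ mn κ t := by
    unfold mn
    have := abs_nonneg t
    exact le_min hκ0.le (by positivity)
  refine (norm_sum_le _ _).trans ?_
  have hterm : ∀ s ∈ P, ‖(mult riemannZeta s : ℂ) * (hh u t s * Mk κ s)‖ ≤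
      (12 * mn κ t) * ((mult riemannZeta s : ℝ) * Real.exp (-(s.im - t) ^ 2 / 4)) := by
    intro s hs
    obtain ⟨a1, a2, a3⟩ := hP s hs
    have hre := re_half RH a1 a2 a3
    have b1 : ‖Mk κ s‖ ≤ 6 * ((1 + |s.im - t|) * mn κ t) :=
      (Mk_le κ hκ0 hκ s (by rw [hre]; norm_num) (by rw [hre]; norm_num)).trans
        (mul_le_mul_of_nonneg_left (mn_shift κ hκ0 s.im t) (by norm_num))
    have b2 := poly_gauss (s.im - t)
    rw [norm_mul, norm_mul, hh_norm s hre, Complex.norm_natCast]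
    have c0 : (0 : ℝ) ≤ (mult riemannZeta s : ℝ) := Nat.cast_nonneg _
    have c1 : (0 : ℝ) ≤ Real.exp (-(s.im - t) ^ 2 / 2) := (Real.exp_pos _).le
    calc (mult riemannZeta s : ℝ) * (Real.exp (-(s.im - t) ^ 2 / 2) * ‖Mk κ s‖)
        ≤ (mult riemannZeta s : ℝ) * (Real.exp (-(s.im - t) ^ 2 / 2) *
            (6 * ((1 + |s.im - t|) * mn κ t))) := by gcongr
      _ = (mult riemannZeta s : ℝ) * (6 * mn κ t *
            ((1 + |s.im - t|) * Real.exp (-(s.im - t) ^ 2 / 2))) := by ring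
      _ ≤ (mult riemannZeta s : ℝ) * (6 * mn κ t * (2 * Real.exp (-(s.im - t) ^ 2 / 4))) := by
          gcongr
      _ = _ := by ring
  calc ∑ s ∈ P, ‖(mult riemannZeta s : ℂ) * (hh u t s * Mk κ s)‖
      ≤ ∑ s ∈ P, (12 * mn κ t) * ((mult riemannZeta s : ℝ) * Real.exp (-(s.im - t) ^ 2 / 4)) :=
        Finset.sum_le_sum hterm
    _ = (12 * mn κ t) * ∑ s ∈ P, (mult riemannZeta s : ℝ) * Real.exp (-(s.im - t) ^ 2 / 4) := by
        rw [Finset.mul_sum]
    _ ≤ (12 * mn κ t) * (C * Real.log (3 + |t|)) := by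
        gcongr
        exact h P t hP
    _ = _ := by ring

end Pool.Agent.L5helper8.CVL
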