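import Pool.Agent.L5helper12.CV.Defs
import Pool.Agent.L5helper59.CV3
import Pool.Agent.L5helper10.CV.ZSP
import Pool.Agent.L5helper8.CV.LocB

/-! Sums over the zeros (for helper12, job CV6): `Lsum`, `Zsum_bd` and (by helper10) `Zsum_SP`. -/

set_option autoImplicit false

open Filter Topology Set MeasureTheory Complex H370

namespace Pool.Agent.L5helper12.CV

open Pool.Agent.L5helper10.TV hiding GG
open Pool.Agent.L5helper12.PV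
open Pool.Agent.Y744 (mz)

theorem zU_mem {U : ℝ} {s : ℂ} (h : s ∈ ZU U) : 0 < s.re ∧ s.re < 1 ∧ riemannZeta s = 0 := by
  unfold ZU at h
  split_ifs at h with hf
  · have h' := (Set.Finite.mem_toFinset hf).1 h
    exact ⟨h'.1, h'.2.1, h'.2.2.2⟩
  · simp at h

theorem Lsum : ∃ C : ℝ, 0 < C ∧ ∀ U t : ℝ,
    ∑ s ∈ ZU U, mz s * Real.exp (-(s.im - t) ^ 2 / 4) ≤ C * Real.log (3 + |t|) := by
  obtain ⟨C, hC, h⟩ := Pool.Agent.L5helper8.CVL.gsum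
  exact ⟨C, hC, fun U t => h (ZU U) t fun s hs => zU_mem hs⟩

theorem Zsum_bd (RH : RiemannHypothesis) : ∃ C : ℝ, 0 ≤ C ∧ ∀ κ U u t : ℝ, 0 < κ → κ ≤ 1 →
    ‖∑ s ∈ ZU U, (mult riemannZeta s : ℂ) * (hh u t s * Mk κ s)‖ ≤ C * (Real.log (3 + |t|) * mn κ t) := by
  obtain ⟨C, hC, h⟩ := Pool.Agent.L5helper8.CVL.zbd RH
  exact ⟨C, hC, fun κ U u t h0 h1 => h (ZU U) κ u t (fun s hs => zU_mem hs) h0 h1⟩

theorem Zsum_SP (RH : RiemannHypothesis) : ∃ C : ℝ, 0 ≤ C ∧ ∀ᶠ T in atTop, ∀ κ u t U : ℝ, 0 < κ → κ ≤ 1 →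
    T / Real.log T ^ 2 ≤ t → t ≤ T * Real.log T ^ 2 → T ^ 2 < U → (zsU U).Finite →
    ‖(∑ s ∈ ZU U, (mult riemannZeta s : ℂ) * (hh u t s * Mk κ s)) - (mk0 κ t : ℂ) * SP (Zw T) u t‖ ≤
      C * (κ * Real.log T / t) :=
  Pool.Agent.L5helper10.CV.Zsum_SP_of RH Mk_le Mk_mk0 Lsum

end Pool.Agent.L5helper12.CV
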