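import Pool.Agent.H370R2.Dyadic

/-! Local counting of the zeros of zeta at all heights, and sums with Gaussian weights. -/

set_option autoImplicit false

open Filter Topology Set Complex

namespace Pool.Agent.L5helper8.CVL

open H370

theorem mult_conj (w : ℂ) (hw : w ≠ 1) :
    mult riemannZeta ((starRingEnd ℂ) w) = mult riemannZeta w := by
  have h0 : DL.refl riemannZeta = riemannZeta ∘ (fun z : ℂ => 1 - z) := by
    funext z
    simp only [DL.refl, Function.comp_apply]
    rw [← riemannZeta_conj]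
    simp
  have h1 : (1 : ℂ) - (starRingEnd ℂ) (1 - w) = (starRingEnd ℂ) w := by simp
  have hwc : (starRingEnd ℂ) w ≠ 1 := by
    intro h
    apply hw
    have := congrArg (starRingEnd ℂ) h
    simpa using this
  have han : AnalyticAt ℂ riemannZeta (1 - (starRingEnd ℂ) (1 - w)) := by
    rw [h1]
    have : DifferentiableOn ℂ riemannZeta ({1}ᶜ : Set ℂ) := fun z hz =>
      (differentiableAt_riemannZeta hz).differentiableWithinAt
    exact this.analyticAt (isOpen_compl_singleton.mem_nhds hwc)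
  have h2 := DL.order_refl han
  rw [h0, h1] at h2
  have hg : AnalyticAt ℂ (fun z : ℂ => 1 - z) (1 - w) := by fun_prop
  have hg' : deriv (fun z : ℂ => 1 - z) (1 - w) ≠ 0 := by
    simp
  have h3 := analyticOrderAt_comp_of_deriv_ne_zero (f := riemannZeta) hg hg'
  rw [h3] at h2
  simp only [sub_sub_cancel] at h2
  unfold mult analyticOrderNatAt
  rw [h2]

/-- zeros in the strip, with ordinate in a unit interval -/
theorem band : ∃ C : ℝ, 0 < C ∧ ∀ (P : Finset ℂ) (x : ℝ),
    (∀ s ∈ P, 0 < s.re ∧ s.re < 1 ∧ riemannZeta s = 0 ∧ x ≤ s.im ∧ s.im < x + 1) →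
    ∑ s ∈ P, (mult riemannZeta s : ℝ) ≤ C * Real.log (3 + |x|) := by
  classical
  obtain ⟨C, hC, hcount⟩ := zcount good_zeta
  have hl3 : 1 ≤ Real.log 3 := by
    rw [← Real.log_exp 1]
    exact Real.log_le_log (Real.exp_pos _) (by have := Real.exp_one_lt_d9; linarith)
  have hl : ∀ x : ℝ, 1 ≤ Real.log (3 + |x|) := fun x =>
    hl3.trans (Real.log_le_log (by norm_num) (by have := abs_nonneg x; linarith))
  -- the finite set of low zeros
  have hfin : {s : ℂ | s ∈ (Icc (0 : ℝ) 1 ×ℂ Icc (-6) 6) ∧ riemannZeta s = 0}.Finite := by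
    refine finite_zeros_compact (fun s hs => ?_) (riemannZeta_ne_zero_of_one_le_re (by simp)) ?_
      (isCompact_Icc.reProdIm isCompact_Icc)
    · have : DifferentiableOn ℂ riemannZeta ({1}ᶜ : Set ℂ) := fun z hz =>
        (differentiableAt_riemannZeta hz).differentiableWithinAt
      exact this.analyticAt (isOpen_compl_singleton.mem_nhds hs)
    · have h := riemannZeta_residue_one
      have h3 := h.eventually_ne (one_ne_zero : (1 : ℂ) ≠ 0)
      filter_upwards [h3] with s hs h0
      rw [h0, mul_zero] at hs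
      exact hs rfl
  set M : ℝ := ∑ s ∈ hfin.toFinset, (mult riemannZeta s : ℝ) with hM
  have hM0 : 0 ≤ M := Finset.sum_nonneg fun _ _ => Nat.cast_nonneg _
  -- the upper band
  have hup : ∀ (P : Finset ℂ) (t : ℝ), 3 ≤ t →
      (∀ s ∈ P, 0 < s.re ∧ s.re < 1 ∧ riemannZeta s = 0 ∧ t - 1 < s.im ∧ s.im ≤ t + 1) →
      ∑ s ∈ P, (mult riemannZeta s : ℝ) ≤ C * Real.log t := by
    intro P t ht hP
    refine le_trans ?_ (hcount t ht)
    have ht3 : 1 ≤ t - 1 := by linarith
    rw [NN_eq good_zeta ht3, Nat.cast_sum]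
    refine Finset.sum_le_sum_of_subset_of_nonneg ?_ fun _ _ _ => Nat.cast_nonneg _
    intro s hs
    obtain ⟨a1, a2, a3, a4, a5⟩ := hP s hs
    exact (mem_Zf good_zeta ht3).2 ⟨a1, a2, a4, a5, a3⟩
  refine ⟨2 * C + M, by positivity, fun P x hP => ?_⟩
  have hlx := hl x
  rcases le_or_gt 3.5 x with h | h
  · -- upper
    have h1 := hup P (x + 1 / 2) (by linarith) (fun s hs => by
      obtain ⟨a1, a2, a3, a4, a5⟩ := hP s hs
      exact ⟨a1, a2, a3, by linarith, by linarith⟩)
    have h2 : Real.log (x + 1 / 2) ≤ Real.log (3 + |x|) :=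
      Real.log_le_log (by linarith) (by rw [abs_of_nonneg (by linarith)]; linarith)
    nlinarith
  · rcases le_or_gt x (-4.5) with h' | h'
    · -- lower
      have e1 : ∑ s ∈ P.image (starRingEnd ℂ), (mult riemannZeta s : ℝ) =
          ∑ s ∈ P, (mult riemannZeta s : ℝ) := by
        rw [Finset.sum_image (fun a _ b _ hab => (starRingEnd ℂ).injective hab)]
        refine Finset.sum_congr rfl fun s hs => ?_
        rw [mult_conj]
        intro h1
        have := (hP s hs).2.1
        rw [h1] at this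
        simp at this
      have h1 := hup (P.image (starRingEnd ℂ)) (-x - 1 / 2) (by linarith) (fun s hs => by
        obtain ⟨w, hw, rfl⟩ := Finset.mem_image.1 hs
        obtain ⟨a1, a2, a3, a4, a5⟩ := hP w hw
        refine ⟨by simpa using a1, by simpa using a2, ?_, ?_, ?_⟩
        · rw [riemannZeta_conj, a3, map_zero]
        · rw [Complex.conj_im]; linarith
        · rw [Complex.conj_im]; linarith)
      rw [e1] at h1
      have h2 : Real.log (-x - 1 / 2) ≤ Real.log (3 + |x|) :=
        Real.log_le_log (by linarith) (by rw [abs_of_neg (by linarith)]; linarith)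
      nlinarith
    · -- middle
      have h1 : ∑ s ∈ P, (mult riemannZeta s : ℝ) ≤ M := by
        refine Finset.sum_le_sum_of_subset_of_nonneg ?_ fun _ _ _ => Nat.cast_nonneg _
        intro s hs
        obtain ⟨a1, a2, a3, a4, a5⟩ := hP s hs
        rw [Set.Finite.mem_toFinset]
        exact ⟨⟨⟨a1.le, a2.le⟩, ⟨by linarith, by linarith⟩⟩, a3⟩
      nlinarith

lemma exp_floor8 (x : ℝ) : Real.exp (-x ^ 2 / 4) ≤ Real.exp 6 * Real.exp (-(2 * |((⌊x⌋ : ℤ) : ℝ)|)) := by
  rw [← Real.exp_add]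
  apply Real.exp_le_exp.mpr
  have h1 := Int.floor_le x
  have h2 := Int.lt_floor_add_one x
  have h3 : |((⌊x⌋ : ℤ) : ℝ)| ≤ |x| + 1 := by
    rw [abs_le]
    constructor
    · have := neg_abs_le x; linarith
    · have := le_abs_self x; linarith
  have h4 : 2 * |x| ≤ x ^ 2 / 4 + 4 := by
    have : x ^ 2 = |x| ^ 2 := (sq_abs x).symm
    rw [this]; nlinarith [sq_nonneg (|x| - 4)]
  linarith

lemma sum_exp : Summable (fun k : ℤ => Real.exp (-|(k : ℝ)|)) := by
  rw [summable_int_iff_summable_nat_and_neg]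
  have h : Summable (fun n : ℕ => Real.exp (-(n : ℝ))) := Real.summable_exp_neg_nat
  constructor
  · refine h.congr fun n => ?_
    simp
  · refine h.congr fun n => ?_
    simp

/-- sums over the zeros in the strip with a Gaussian weight -/
theorem gsum : ∃ C : ℝ, 0 < C ∧ ∀ (P : Finset ℂ) (t : ℝ),
    (∀ s ∈ P, 0 < s.re ∧ s.re < 1 ∧ riemannZeta s = 0) →
    ∑ s ∈ P, (mult riemannZeta s : ℝ) * Real.exp (-(s.im - t) ^ 2 / 4) ≤ C * Real.log (3 + |t|) := by
  classical
  obtain ⟨C, hC, hb⟩ := band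
  have hl3 : 1 ≤ Real.log 3 := by
    rw [← Real.log_exp 1]
    exact Real.log_le_log (Real.exp_pos _) (by have := Real.exp_one_lt_d9; linarith)
  set S := ∑' k : ℤ, Real.exp (-|(k : ℝ)|) with hS
  have hS0 : 0 < S := sum_exp.tsum_pos (fun k => (Real.exp_pos _).le) 0 (Real.exp_pos _)
  refine ⟨C * Real.exp 6 * S, by positivity, fun P t hP => ?_⟩
  have hlt : 1 ≤ Real.log (3 + |t|) :=
    hl3.trans (Real.log_le_log (by norm_num) (by have := abs_nonneg t; linarith))
  rw [← Finset.sum_fiberwise_of_maps_to (s := P)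
    (t := P.image (fun s => ⌊s.im - t⌋)) (g := fun s => ⌊s.im - t⌋)
    (fun s hs => Finset.mem_image_of_mem _ hs)]
  have hk : ∀ k : ℤ, ∑ s ∈ P.filter (fun s => ⌊s.im - t⌋ = k),
      (mult riemannZeta s : ℝ) * Real.exp (-(s.im - t) ^ 2 / 4) ≤
      C * Real.exp 6 * Real.log (3 + |t|) * Real.exp (-|(k : ℝ)|) := by
    intro k
    have h1 : ∑ s ∈ P.filter (fun s => ⌊s.im - t⌋ = k), (mult riemannZeta s : ℝ) ≤
        C * Real.log (3 + |t + k|) := by
      refine hb _ _ fun s hs => ?_
      rw [Finset.mem_filter] at hs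
      obtain ⟨a1, a2, a3⟩ := hP s hs.1
      have e1 : (k : ℝ) ≤ s.im - t := by rw [← hs.2]; exact Int.floor_le _
      have e2 : s.im - t < k + 1 := by rw [← hs.2]; exact Int.lt_floor_add_one _
      exact ⟨a1, a2, a3, by linarith, by linarith⟩
    have h2 : Real.log (3 + |t + k|) ≤ (1 + |(k : ℝ)|) * Real.log (3 + |t|) := by
      have ht := abs_nonneg t
      have hkk := abs_nonneg (k : ℝ)
      have htk := abs_add_le t (k : ℝ)
      have htk0 := abs_nonneg (t + (k : ℝ))
      have e1 : Real.log (3 + |t + k|) ≤ Real.log ((3 + |t|) * (1 + |(k : ℝ)|)) := by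
        apply Real.log_le_log (by linarith)
        nlinarith [mul_nonneg ht hkk]
      rw [Real.log_mul (by linarith) (by linarith)] at e1
      have e2 : Real.log (1 + |(k : ℝ)|) ≤ |(k : ℝ)| := by
        have := Real.log_le_sub_one_of_pos (show 0 < 1 + |(k : ℝ)| by linarith)
        linarith
      nlinarith
    have h3 : (1 + |(k : ℝ)|) * Real.exp (-(2 * |(k : ℝ)|)) ≤ Real.exp (-|(k : ℝ)|) := by
      have e1 : 1 + |(k : ℝ)| ≤ Real.exp |(k : ℝ)| := by
        have := Real.add_one_le_exp |(k : ℝ)|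
        linarith
      calc (1 + |(k : ℝ)|) * Real.exp (-(2 * |(k : ℝ)|)) ≤
          Real.exp |(k : ℝ)| * Real.exp (-(2 * |(k : ℝ)|)) := by gcongr
        _ = Real.exp (-|(k : ℝ)|) := by rw [← Real.exp_add]; congr 1; ring
    calc ∑ s ∈ P.filter (fun s => ⌊s.im - t⌋ = k),
          (mult riemannZeta s : ℝ) * Real.exp (-(s.im - t) ^ 2 / 4)
        ≤ ∑ s ∈ P.filter (fun s => ⌊s.im - t⌋ = k),
          (mult riemannZeta s : ℝ) * (Real.exp 6 * Real.exp (-(2 * |(k : ℝ)|))) := by
          refine Finset.sum_le_sum fun s hs => ?_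
          rw [Finset.mem_filter] at hs
          have := exp_floor8 (s.im - t)
          rw [hs.2] at this
          exact mul_le_mul_of_nonneg_left this (Nat.cast_nonneg _)
      _ = (∑ s ∈ P.filter (fun s => ⌊s.im - t⌋ = k), (mult riemannZeta s : ℝ)) *
          (Real.exp 6 * Real.exp (-(2 * |(k : ℝ)|))) := by rw [Finset.sum_mul]
      _ ≤ (C * ((1 + |(k : ℝ)|) * Real.log (3 + |t|))) * (Real.exp 6 * Real.exp (-(2 * |(k : ℝ)|))) := by
          gcongr
          exact h1.trans (mul_le_mul_of_nonneg_left h2 hC.le)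
      _ = C * Real.exp 6 * Real.log (3 + |t|) * ((1 + |(k : ℝ)|) * Real.exp (-(2 * |(k : ℝ)|))) := by
          ring
      _ ≤ _ := by
          gcongr
  calc ∑ k ∈ P.image (fun s => ⌊s.im - t⌋), ∑ s ∈ P.filter (fun s => ⌊s.im - t⌋ = k),
        (mult riemannZeta s : ℝ) * Real.exp (-(s.im - t) ^ 2 / 4)
      ≤ ∑ k ∈ P.image (fun s => ⌊s.im - t⌋),
        C * Real.exp 6 * Real.log (3 + |t|) * Real.exp (-|(k : ℝ)|) :=
        Finset.sum_le_sum fun k _ => hk k
    _ = C * Real.exp 6 * Real.log (3 + |t|) * ∑ k ∈ P.image (fun s => ⌊s.im - t⌋),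
        Real.exp (-|(k : ℝ)|) := by rw [Finset.mul_sum]
    _ ≤ C * Real.exp 6 * Real.log (3 + |t|) * S := by
        gcongr
        exact sum_exp.sum_le_tsum _ (fun k _ => (Real.exp_pos _).le)
    _ = _ := by ring

end Pool.Agent.L5helper8.CVL
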